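import Pool.Agent.Work.MP_620749_an.Flow
import Pool.Agent.Work.MP_620749_an.Final

/-!
Degree two case of the question: for which monomials `z_1^a z_2^b` is every coefficient
in the first component of a map with parametric representation on the ball of `C^2` also the
coefficient of the restriction of an automorphism of `C^2`.
-/

namespace Pool.Agent.Results.MP_620749_an.DegreeTwo

open Pool.Agent.Work.MP_620749_an

/-- Among the multi-indices `(a, b)` of degree two exactly `(0, 2)` has the property of the
question. -/
theorem result (a b : ℕ) (hab : a + b = 2) :
    (∀ f ∈ ClassS0, ∃ g ∈ ClassA, coeffOne a b g = coeffOne a b f) ↔ (a = 0 ∧ b = 2) :=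
  main (fun _ hf => ae_field hf) a b hab

end Pool.Agent.Results.MP_620749_an.DegreeTwo
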